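import Pool.Agent.Y981.QB.Stm2
import Pool.Agent.Y872.QB.Cnt

/-!
# QB-CNT2: the number of walks with `K` consecutive light pieces, with generating functions
-/

set_option autoImplicit false

namespace Pool.Agent.Y297.QB

open Pool.Agent.Y981.QB Pool.Agent.Y872.QB H978R2.Hex

/-- CNT2 -/
theorem cnt2 (hs : S_SPLIT) : S_CNT2 := by
  intro η s A B W lam n K x y hx hy hS hL hA hB
  have hA0 : 0 ≤ A := (Finset.sum_nonneg fun m _ =>
    mul_nonneg (hx m) (Real.exp_pos _).le).trans hA
  have hB0 : 0 ≤ B := (Finset.sum_nonneg fun m _ =>
    mul_nonneg (hy m) (Real.exp_pos _).le).trans hB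
  have hmu : 0 ≤ mu0 := mu0_nonneg
  have key : ∀ K n' : ℕ, n' ≤ n → ∀ (v : V) (F : Finset (List V)),
      (∀ l ∈ F, IsSW v n' l ∧ DL η W lam n' (gt l) K) →
      (F.card : ℝ) ≤ mu0 ^ n' * (Real.exp (s * n') * A * (A * B) ^ K) := by
    intro K
    induction K with
    | zero =>
      intro n' hn v F hF
      have h := hS v n' F hn (fun l hl => (hF l hl).1)
      refine h.trans (mul_le_mul_of_nonneg_left ?_ (pow_nonneg hmu _))
      rw [pow_zero, mul_one]
      have h1 : x n' * Real.exp (-s * n') ≤ A := by
        refine le_trans ?_ hA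
        exact Finset.single_le_sum (f := fun m : ℕ => x m * Real.exp (-s * m))
          (fun m _ => mul_nonneg (hx m) (Real.exp_pos _).le)
          (Finset.mem_range.2 (Nat.lt_succ_of_le hn))
      have h2 : x n' = Real.exp (s * n') * (x n' * Real.exp (-s * n')) := by
        rw [mul_left_comm, ← Real.exp_add]
        rw [show s * (n' : ℝ) + -s * n' = 0 by ring, Real.exp_zero, mul_one]
      rw [h2]
      exact mul_le_mul_of_nonneg_left h1 (Real.exp_pos _).le
    | succ K ih =>
      intro n' hn v F hF
      classical
      set P : ℕ × ℕ → List V → Prop := fun p l => p.1 + p.2 ≤ n' ∧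
        Light η W lam p.2 (gt ((l.drop p.1).take (p.2 + 1))) ∧
        DL η W lam (n' - (p.1 + p.2)) (gt (l.drop (p.1 + p.2))) K with hP
      set c : ℝ := mu0 ^ n' * (Real.exp (s * n') * A * (A * B) ^ K) with hc
      have hc0 : 0 ≤ c := by positivity
      have hone : ∀ p : ℕ × ℕ, ((F.filter (P p)).card : ℝ) ≤
          c * ((x p.1 * Real.exp (-s * p.1)) * (y p.2 * Real.exp (-s * p.2))) := by
        intro p
        by_cases hp : p.1 + p.2 ≤ n'
        · have hmem : ∀ l ∈ F.filter (P p), IsSW v n' l ∧
              Light η W lam p.2 (gt ((l.drop p.1).take (p.2 + 1))) ∧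
              DL η W lam (n' - (p.1 + p.2)) (gt (l.drop (p.1 + p.2))) K := by
            intro l hl
            rw [Finset.mem_filter] at hl
            exact ⟨(hF l hl.1).1, hl.2.2.1, hl.2.2.2⟩
          have hab : p.1 ≤ p.1 + p.2 := Nat.le_add_right _ _
          have hd : p.1 + p.2 - p.1 = p.2 := Nat.add_sub_cancel_left _ _
          have h := hs n' p.1 (p.1 + p.2) (mu0 ^ p.1 * x p.1) (mu0 ^ p.2 * y p.2)
            (mu0 ^ (n' - (p.1 + p.2)) *
              (Real.exp (s * ((n' - (p.1 + p.2) : ℕ) : ℝ)) * A * (A * B) ^ K))
            (F.filter (P p)) hab hp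
            (mul_nonneg (pow_nonneg hmu _) (hx _)) (mul_nonneg (pow_nonneg hmu _) (hy _))
            (by positivity)
            (fun l hl => (hmem l hl).1.1)
            (by
              intro G hG
              refine hS v p.1 G (hab.trans (hp.trans hn)) fun l hl => ?_
              obtain ⟨l', hl', rfl⟩ := hG l hl
              exact sw_take (hmem l' hl').1 (hab.trans hp))
            (by
              intro u G hG
              refine hL u p.2 G (by omega) fun l hl => ?_
              obtain ⟨hu, l', hl', rfl⟩ := hG l hl
              have h1 := sw_mid (hmem l' hl').1 hab hp hu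
              rw [hd] at h1 ⊢
              exact ⟨h1, (hmem l' hl').2.1⟩)
            (by
              intro u G hG
              exact ih (n' - (p.1 + p.2)) (by omega) u G fun l hl => by
                obtain ⟨hu, l', hl', rfl⟩ := hG l hl
                exact ⟨sw_drop (hmem l' hl').1 hp hu, (hmem l' hl').2.2⟩)
          refine h.trans (le_of_eq ?_)
          rw [hc]
          have h4 : mu0 ^ n' = mu0 ^ p.1 * mu0 ^ p.2 * mu0 ^ (n' - (p.1 + p.2)) := by
            rw [← pow_add, ← pow_add]
            congr 1
            omega
          have h5 : Real.exp (s * ((n' - (p.1 + p.2) : ℕ) : ℝ)) =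
              Real.exp (s * n') * Real.exp (-s * p.1) * Real.exp (-s * p.2) := by
            rw [← Real.exp_add, ← Real.exp_add, Nat.cast_sub hp]
            congr 1
            push_cast
            ring
          rw [h4, h5]
          ring
        · have h0 : F.filter (P p) = ∅ := by
            rw [Finset.filter_eq_empty_iff]
            intro l _ hl
            exact hp hl.1
          rw [h0, Finset.card_empty, Nat.cast_zero]
          exact mul_nonneg hc0 (mul_nonneg (mul_nonneg (hx _) (Real.exp_pos _).le)
            (mul_nonneg (hy _) (Real.exp_pos _).le))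
      have hsub : F ⊆ (Finset.range (n + 1) ×ˢ Finset.range (n + 1)).biUnion
          (fun p => F.filter (P p)) := by
        intro l hl
        obtain ⟨a, b, hab, hb, h1, h2⟩ := dl_shift (hF l hl).2
        rw [Finset.mem_biUnion]
        refine ⟨(a, b - a), ?_, ?_⟩
        · rw [Finset.mem_product, Finset.mem_range, Finset.mem_range]
          exact ⟨by show a < n + 1; omega, by show b - a < n + 1; omega⟩
        · rw [Finset.mem_filter]
          have h3 : a + (b - a) = b := by omega
          refine ⟨hl, ?_, h1, ?_⟩
          · show a + (b - a) ≤ n'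
            omega
          · show DL η W lam (n' - (a + (b - a))) (gt (l.drop (a + (b - a)))) K
            rw [h3]
            exact h2
      have hcard : (F.card : ℝ) ≤ ∑ p ∈ Finset.range (n + 1) ×ˢ Finset.range (n + 1),
          ((F.filter (P p)).card : ℝ) := by
        have h1 := (Finset.card_le_card hsub).trans Finset.card_biUnion_le
        exact_mod_cast h1
      refine hcard.trans ((Finset.sum_le_sum fun p _ => hone p).trans ?_)
      rw [← Finset.mul_sum, Finset.sum_product]
      have h6 : ∑ a ∈ Finset.range (n + 1), ∑ d ∈ Finset.range (n + 1),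
          (x a * Real.exp (-s * a)) * (y d * Real.exp (-s * d)) =
          (∑ a ∈ Finset.range (n + 1), x a * Real.exp (-s * a)) *
            ∑ d ∈ Finset.range (n + 1), y d * Real.exp (-s * d) := by
        rw [Finset.sum_mul_sum]
      have h7 : (∑ a ∈ Finset.range (n + 1), x a * Real.exp (-s * a)) *
            ∑ d ∈ Finset.range (n + 1), y d * Real.exp (-s * d) ≤ A * B :=
        mul_le_mul hA hB (Finset.sum_nonneg fun m _ => mul_nonneg (hy m) (Real.exp_pos _).le) hA0
      refine (mul_le_mul_of_nonneg_left (h6.le.trans h7) hc0).trans (le_of_eq ?_)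
      rw [hc, pow_succ]
      ring
  intro v F hF
  exact key K n le_rfl v F hF

end Pool.Agent.Y297.QB
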